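import Mathlib

/-!
# The strong diameter two property of the spaces `Lip(M, Y)`

Let `M` be a metric space with a base point `o`, and `Y` a real normed space. `Lip(M, Y)` is the space of the Lipschitz maps
`M → Y` which vanish at `o`, with the least Lipschitz constant as norm. A Banach space has the strong diameter two property if
every convex combination of slices of its unit ball has diameter two; the slices are given by arbitrary functionals of norm one.

**Theorem.** If `M` is unbounded or not uniformly discrete, then `Lip(M, Y)` has the strong diameter two property for every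
normed space `Y`, in particular for all dual spaces `Y = X*`. It even has the symmetric strong diameter two property.

The problem asks this for the pairs `(M, X*)` with the contraction-extension property; this property is not needed.

Proof. (1) For all `E > 1` and `N` there are `N` pairs `c_k ≠ x_k` of points of `M` such that the annuli
`A_k = {p : t_k / E < d(p, c_k) < t_k E}`, `t_k = d(c_k, x_k)`, are disjoint. If `M` is unbounded, `c_k = o` will do. If `M` is not
uniformly discrete, we take pairs `(a_n, b_n)` whose distances decrease rapidly and apply Ramsey's theorem: either the pairs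
themselves will do, or the `a_n` form a Cauchy sequence, and then `c_k = a_N`, `x_k = a_k` will do.
(2) Let `φ_k` be the function of `log d(p, c_k)` which is `1` at `log t_k` and has slopes `± η` down to `0`, `η = 1 / log E`; its
support is `A_k`. For `z` in the unit ball of `Lip(M, Y)` and a unit vector `e` the maps
`z + φ_k (± d(·, c_k) e - (z - z(c_k)))` have the Lipschitz constant `1 + 2 η`, since `φ_k` changes by at most `η s / d(q, c_k)`
between points at the distance `s`.
(3) The perturbations for different `k` have disjoint supports, hence bounded signed sums, hence every functional is small at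
most of them. So for finitely many slices and a suitable `k` all perturbed maps, divided by `1 + 2 η`, stay in their slices, and
the difference of the two signs is `2 φ_k d(·, c_k) e / (1 + 2 η)` up to a constant, the same for all slices, of norm at least
`2 / (1 + 2 η)`: look at `x_k` and `c_k`.
-/

set_option autoImplicit false

noncomputable section

namespace Pool.Agent.Results.MP_6460d9_an.NoExtensionProperty

/-! ### The space `Lip(M, Y)` -/

section space

variable (M : Type*) [MetricSpace M] (o : M) (Y : Type*) [NormedAddCommGroup Y] [NormedSpace ℝ Y]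

/-- The vector space of the Lipschitz maps `M → Y` which vanish at the base point `o`. -/
def lipSub : Submodule ℝ (M → Y) where
  carrier := {f | f o = 0 ∧ ∃ K : ℝ, 0 ≤ K ∧ ∀ x y, ‖f x - f y‖ ≤ K * dist x y}
  zero_mem' := ⟨rfl, 0, le_rfl, fun x y => by simp⟩
  add_mem' := by
    rintro f g ⟨hf, K, hK, hfK⟩ ⟨hg, L, hL, hgL⟩
    refine ⟨by simp [hf, hg], K + L, by positivity, fun x y => ?_⟩
    have h1 := hfK x y
    have h2 := hgL x y
    have : (f + g) x - (f + g) y = (f x - f y) + (g x - g y) := by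
      simp only [Pi.add_apply]; abel
    rw [this]
    calc _ ≤ ‖f x - f y‖ + ‖g x - g y‖ := norm_add_le _ _
      _ ≤ _ := by rw [add_mul]; exact add_le_add h1 h2
  smul_mem' := by
    rintro c f ⟨hf, K, hK, hfK⟩
    refine ⟨by simp [hf], |c| * K, by positivity, fun x y => ?_⟩
    have h1 := hfK x y
    have : (c • f) x - (c • f) y = c • (f x - f y) := by
      simp only [Pi.smul_apply, smul_sub]
    rw [this, norm_smul, Real.norm_eq_abs, mul_assoc]
    exact mul_le_mul_of_nonneg_left h1 (abs_nonneg _)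

/-- `Lip M o Y`: the space of the Lipschitz maps `M → Y` which vanish at the base point `o`; its norm, defined below, is the
least Lipschitz constant. -/
def Lip : Type _ := ↥(lipSub M o Y)

variable {M o Y}

/-- The underlying map. -/
def Lip.fn (f : Lip M o Y) : M → Y := f.1

/-- pointwise addition -/
local instance lipACG : AddCommGroup (Lip M o Y) := Submodule.addCommGroup (lipSub M o Y)
/-- pointwise scalar multiplication -/
local instance lipMod : Module ℝ (Lip M o Y) := Submodule.module (lipSub M o Y)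

/-- The norm: the least Lipschitz constant. -/
instance : Norm (Lip M o Y) :=
  ⟨fun f => sInf {K : ℝ | 0 ≤ K ∧ ∀ x y, ‖f.fn x - f.fn y‖ ≤ K * dist x y}⟩

theorem Lip.ext {f g : Lip M o Y} (h : ∀ x, f.fn x = g.fn x) : f = g :=
  Subtype.ext (funext h)

theorem Lip.fn_add' (f g : Lip M o Y) (x : M) : (f + g).fn x = f.fn x + g.fn x := rfl
theorem Lip.fn_smul' (c : ℝ) (f : Lip M o Y) (x : M) : (c • f).fn x = c • f.fn x := rfl
theorem Lip.fn_zero' (x : M) : (0 : Lip M o Y).fn x = 0 := rfl
theorem Lip.fn_base (f : Lip M o Y) : f.fn o = 0 := f.2.1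

/-- Constructor. -/
def Lip.mk (f : M → Y) (h0 : f o = 0) (K : ℝ) (hK : 0 ≤ K)
    (h : ∀ x y, ‖f x - f y‖ ≤ K * dist x y) : Lip M o Y := ⟨f, h0, K, hK, h⟩

theorem Lip.fn_mk (f : M → Y) (h0 : f o = 0) (K : ℝ) (hK : 0 ≤ K)
    (h : ∀ x y, ‖f x - f y‖ ≤ K * dist x y) (x : M) :
    (Lip.mk f h0 K hK h).fn x = f x := rfl

theorem Lip.set_nonempty (f : Lip M o Y) :
    {K : ℝ | 0 ≤ K ∧ ∀ x y, ‖f.fn x - f.fn y‖ ≤ K * dist x y}.Nonempty := by
  obtain ⟨K, hK, h⟩ := f.2.2
  exact ⟨K, hK, h⟩

theorem Lip.norm_le' (f : Lip M o Y) {K : ℝ} (hK : 0 ≤ K)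
    (h : ∀ x y, ‖f.fn x - f.fn y‖ ≤ K * dist x y) : ‖f‖ ≤ K :=
  csInf_le ⟨0, fun _ h => h.1⟩ ⟨hK, h⟩

theorem Lip.norm_nonneg' (f : Lip M o Y) : 0 ≤ ‖f‖ :=
  le_csInf f.set_nonempty fun _ h => h.1

theorem Lip.norm_sub_le (f : Lip M o Y) (x y : M) : ‖f.fn x - f.fn y‖ ≤ ‖f‖ * dist x y := by
  rcases eq_or_ne x y with rfl | hxy
  · simp
  · have hd : 0 < dist x y := dist_pos.2 hxy
    rw [← div_le_iff₀ hd]
    refine le_csInf f.set_nonempty ?_
    rintro K ⟨_, hK⟩
    rw [div_le_iff₀ hd]
    exact hK x y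

theorem Lip.core : NormedSpace.Core ℝ (Lip M o Y) where
  norm_nonneg f := f.norm_nonneg'
  norm_smul c f := by
    apply le_antisymm
    · refine Lip.norm_le' _ (mul_nonneg (norm_nonneg _) f.norm_nonneg') fun x y => ?_
      have h1 := f.norm_sub_le x y
      have : (c • f).fn x - (c • f).fn y = c • (f.fn x - f.fn y) := by
        simp only [Lip.fn_smul', smul_sub]
      rw [this, norm_smul, mul_assoc]
      exact mul_le_mul_of_nonneg_left h1 (norm_nonneg _)
    · rcases eq_or_ne c 0 with rfl | hc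
      · simp only [norm_zero, zero_mul]; exact Lip.norm_nonneg' _
      · have hc' : 0 < ‖c‖ := norm_pos_iff.2 hc
        rw [← le_div_iff₀' hc']
        refine Lip.norm_le' _ (div_nonneg (Lip.norm_nonneg' _) hc'.le) fun x y => ?_
        have h1 := (c • f).norm_sub_le x y
        have : (c • f).fn x - (c • f).fn y = c • (f.fn x - f.fn y) := by
          simp only [Lip.fn_smul', smul_sub]
        rw [this, norm_smul] at h1
        rw [div_mul_eq_mul_div, le_div_iff₀ hc', mul_comm]
        exact h1
  norm_triangle f g := by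
    refine Lip.norm_le' _ (add_nonneg f.norm_nonneg' g.norm_nonneg') fun x y => ?_
    have h1 := f.norm_sub_le x y
    have h2 := g.norm_sub_le x y
    have : (f + g).fn x - (f + g).fn y = (f.fn x - f.fn y) + (g.fn x - g.fn y) := by
      simp only [Lip.fn_add']; abel
    rw [this]
    calc _ ≤ ‖f.fn x - f.fn y‖ + ‖g.fn x - g.fn y‖ := norm_add_le _ _
      _ ≤ _ := by rw [add_mul]; exact add_le_add h1 h2
  norm_eq_zero_iff f := by
    constructor
    · intro h
      apply Lip.ext
      intro x
      have h1 := f.norm_sub_le x o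
      rw [h, zero_mul, Lip.fn_base, sub_zero] at h1
      rw [Lip.fn_zero']
      exact norm_le_zero_iff.1 h1
    · rintro rfl
      apply le_antisymm _ (Lip.norm_nonneg' _)
      refine Lip.norm_le' _ le_rfl fun x y => by simp [Lip.fn_zero']

instance : NormedAddCommGroup (Lip M o Y) := NormedAddCommGroup.ofCore (Lip.core (M := M) (o := o) (Y := Y))
instance : NormedSpace ℝ (Lip M o Y) := NormedSpace.ofCore (Lip.core (M := M) (o := o) (Y := Y))

end space

/-! ### The strong diameter two property -/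

section sd2p

variable {Z : Type*} [NormedAddCommGroup Z] [NormedSpace ℝ Z]

/-- The slice `S(B_Z, f, α)` of the closed unit ball of `Z`. -/
def slice (f : Z →L[ℝ] ℝ) (α : ℝ) : Set Z := {z | ‖z‖ ≤ 1 ∧ 1 - α < f z}

/-- The combination `∑ c i • S(B_Z, f i, α i)` of slices. -/
def combination {n : ℕ} (c : Fin n → ℝ) (f : Fin n → Z →L[ℝ] ℝ) (α : Fin n → ℝ) : Set Z :=
  {z | ∃ w : Fin n → Z, (∀ i, w i ∈ slice (f i) (α i)) ∧ z = ∑ i, c i • w i}

variable (Z) in
/-- The strong diameter two property: every convex combination of slices of the unit ball, given by arbitrary functionals of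
norm one, has diameter two. -/
def StrongDiameterTwo : Prop :=
  ∀ (n : ℕ) (c : Fin n → ℝ) (f : Fin n → Z →L[ℝ] ℝ) (α : Fin n → ℝ), (∀ i, 0 < c i) → ∑ i, c i = 1 →
    (∀ i, ‖f i‖ = 1) → (∀ i, 0 < α i) → Metric.diam (combination c f α) = 2

variable (Z) in
/-- The symmetric strong diameter two property: for finitely many slices `S i` of the unit ball, given by arbitrary
functionals of norm one, and `ε > 0` there are elements `x i` of `S i` and a `y` with `1 - ε < ‖y‖ ≤ 1` such that all
`x i + y` and `x i - y` belong to `S i`. -/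
def SymmetricStrongDiameterTwo : Prop :=
  ∀ (n : ℕ) (f : Fin n → Z →L[ℝ] ℝ) (α : Fin n → ℝ) (ε : ℝ), 0 < n → (∀ i, ‖f i‖ = 1) → (∀ i, 0 < α i) → 0 < ε →
    ∃ (x : Fin n → Z) (y : Z), 1 - ε < ‖y‖ ∧ ‖y‖ ≤ 1 ∧
      ∀ i, x i ∈ slice (f i) (α i) ∧ x i + y ∈ slice (f i) (α i) ∧ x i - y ∈ slice (f i) (α i)

theorem sum_abs_le (f : Z →L[ℝ] ℝ) (hf : ‖f‖ ≤ 1) (N : ℕ) (w : ℕ → Z) (C : ℝ)
    (h : ∀ ε : ℕ → ℝ, (∀ k, |ε k| ≤ 1) → ‖∑ k ∈ Finset.range N, ε k • w k‖ ≤ C) :
    ∑ k ∈ Finset.range N, |f (w k)| ≤ C := by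
  have h1 := h (fun k => if 0 ≤ f (w k) then 1 else -1) (fun k => by
    show |(if 0 ≤ f (w k) then (1 : ℝ) else -1)| ≤ 1
    split_ifs <;> simp)
  have h2 : ∑ k ∈ Finset.range N, |f (w k)| =
      f (∑ k ∈ Finset.range N, (if 0 ≤ f (w k) then (1 : ℝ) else -1) • w k) := by
    rw [map_sum]
    refine Finset.sum_congr rfl fun k _ => ?_
    rw [map_smul, smul_eq_mul]
    split_ifs with h3
    · rw [abs_of_nonneg h3, one_mul]
    · rw [abs_of_neg (not_le.1 h3)]; ring
  rw [h2]
  refine (le_abs_self _).trans ?_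
  rw [← Real.norm_eq_abs]
  refine (f.le_opNorm _).trans ?_
  calc ‖f‖ * _ ≤ 1 * C := mul_le_mul hf h1 (norm_nonneg _) zero_le_one
    _ = C := one_mul C

theorem exists_almost_norming (f : Z →L[ℝ] ℝ) (hf : ‖f‖ = 1) {β : ℝ} (hβ : 0 < β) :
    ∃ z : Z, ‖z‖ ≤ 1 ∧ 1 - β < f z := by
  by_contra hcon
  push Not at hcon
  have h1 : ‖f‖ ≤ max 0 (1 - β) := by
    refine ContinuousLinearMap.opNorm_le_bound _ (le_max_left _ _) fun z => ?_
    rcases eq_or_ne z 0 with rfl | hz
    · simp
    · have hz' : 0 < ‖z‖ := norm_pos_iff.2 hz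
      have h2 : ∀ σ : ℝ, |σ| = 1 → σ * f z ≤ (1 - β) * ‖z‖ := by
        intro σ hσ
        have h3 := hcon ((σ * ‖z‖⁻¹) • z) (by
          rw [norm_smul, Real.norm_eq_abs, abs_mul, hσ, one_mul, abs_of_pos (inv_pos.2 hz'),
            inv_mul_cancel₀ hz'.ne'])
        rw [map_smul, smul_eq_mul] at h3
        have h4 : σ * f z = (σ * ‖z‖⁻¹ * f z) * ‖z‖ := by field_simp
        rw [h4]
        exact mul_le_mul_of_nonneg_right h3 hz'.le
      have h5 := h2 1 (by simp)
      have h6 := h2 (-1) (by simp)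
      rw [Real.norm_eq_abs, abs_le]
      have h7 : (1 - β) * ‖z‖ ≤ max 0 (1 - β) * ‖z‖ := mul_le_mul_of_nonneg_right (le_max_right _ _) hz'.le
      constructor <;> linarith
  rw [hf] at h1
  rcases le_max_iff.1 h1 with h2 | h2 <;> linarith

end sd2p

/-! ### The logarithmic cut-off -/

section cutoff

/-- A tent function in the logarithmic scale: it is `1` at `t` and vanishes outside of `(t e^(-1/η), t e^(1/η))`. -/
def psi (η t s : ℝ) : ℝ := if s ≤ 0 then 0 else max 0 (1 - η * |Real.log s - Real.log t|)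

theorem psi_nonneg (η t s : ℝ) : 0 ≤ psi η t s := by
  unfold psi
  split_ifs
  · exact le_rfl
  · exact le_max_left _ _

theorem psi_le_one {η : ℝ} (hη : 0 ≤ η) (t s : ℝ) : psi η t s ≤ 1 := by
  unfold psi
  split_ifs
  · exact zero_le_one
  · refine max_le zero_le_one ?_
    have : 0 ≤ η * |Real.log s - Real.log t| := by positivity
    linarith

theorem psi_self (η : ℝ) {t : ℝ} (ht : 0 < t) : psi η t t = 1 := by
  unfold psi
  rw [if_neg (not_le.2 ht)]
  simp

theorem psi_ne_zero {η t s : ℝ} (hη : 0 < η) (ht : 0 < t) (h : psi η t s ≠ 0) :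
    t / Real.exp (1 / η) < s ∧ s < t * Real.exp (1 / η) := by
  unfold psi at h
  split_ifs at h with hs
  · exact absurd rfl h
  · have hs' : 0 < s := not_le.1 hs
    have h1 : 0 < 1 - η * |Real.log s - Real.log t| := by
      by_contra h2
      exact h (max_eq_left (not_lt.1 h2))
    have h2 : |Real.log s - Real.log t| < 1 / η := by
      rw [lt_div_iff₀ hη]; linarith
    rw [abs_lt] at h2
    constructor
    · rw [← Real.log_lt_log_iff (by positivity) hs', Real.log_div ht.ne' (Real.exp_pos _).ne', Real.log_exp]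
      linarith
    · rw [← Real.log_lt_log_iff hs' (by positivity), Real.log_mul ht.ne' (Real.exp_pos _).ne', Real.log_exp]
      linarith

theorem psi_lip {η t s s' : ℝ} (hη : 0 ≤ η) (hs' : 0 < s') (h : s' ≤ s) :
    |psi η t s - psi η t s'| * s' ≤ η * (s - s') := by
  have hs : 0 < s := lt_of_lt_of_le hs' h
  unfold psi
  rw [if_neg (not_le.2 hs), if_neg (not_le.2 hs'), max_comm, max_comm 0 (1 - η * |Real.log s' - Real.log t|)]
  have h1 := abs_max_sub_max_le_abs (1 - η * |Real.log s - Real.log t|) (1 - η * |Real.log s' - Real.log t|) 0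
  have h2 : |1 - η * |Real.log s - Real.log t| - (1 - η * |Real.log s' - Real.log t|)| ≤
      η * (Real.log s - Real.log s') := by
    have e1 : 1 - η * |Real.log s - Real.log t| - (1 - η * |Real.log s' - Real.log t|) =
        η * (|Real.log s' - Real.log t| - |Real.log s - Real.log t|) := by ring
    rw [e1, abs_mul, abs_of_nonneg hη]
    refine mul_le_mul_of_nonneg_left ?_ hη
    refine (abs_abs_sub_abs_le_abs_sub _ _).trans ?_
    have e2 : Real.log s' - Real.log t - (Real.log s - Real.log t) = -(Real.log s - Real.log s') := by ring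
    rw [e2, abs_neg, abs_of_nonneg]
    have := Real.log_le_log hs' h
    linarith
  have h3 : Real.log s - Real.log s' ≤ s / s' - 1 := by
    rw [← Real.log_div hs.ne' hs'.ne']
    exact Real.log_le_sub_one_of_pos (by positivity)
  have h4 : (s / s' - 1) * s' = s - s' := by field_simp
  calc _ ≤ (η * (s / s' - 1)) * s' := by
        refine mul_le_mul_of_nonneg_right ?_ hs'.le
        exact (h1.trans h2).trans (mul_le_mul_of_nonneg_left h3 hη)
    _ = η * (s - s') := by rw [mul_assoc, h4]

end cutoff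

/-! ### The perturbations -/

section pert

variable {M : Type*} [MetricSpace M] {o : M} {Y : Type*} [NormedAddCommGroup Y] [NormedSpace ℝ Y]

/-- The perturbation of `z` around the point `c`, at the scale `d(c, x)`; the slope of the new map between `c` and `x` is
`σ e`. -/
def raw (z : M → Y) (e : Y) (η σ : ℝ) (c x p : M) : Y :=
  psi η (dist c x) (dist p c) • ((σ * dist p c) • e - (z p - z c))

theorem raw_add_lip_aux {z : M → Y} (hz : ∀ p q, ‖z p - z q‖ ≤ dist p q) {e : Y} (he : ‖e‖ = 1) {η σ : ℝ}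
    (hη : 0 ≤ η) (hσ : |σ| = 1) (c x p q : M) (hpq : dist q c ≤ dist p c) :
    ‖(z p + raw z e η σ c x p) - (z q + raw z e η σ c x q)‖ ≤ (1 + 2 * η) * dist p q := by
  unfold raw
  set φp := psi η (dist c x) (dist p c) with hφp
  set φq := psi η (dist c x) (dist q c) with hφq
  have e1 : (z p + φp • ((σ * dist p c) • e - (z p - z c))) - (z q + φq • ((σ * dist q c) • e - (z q - z c))) =
      (1 - φp) • (z p - z q) + φp • ((σ * (dist p c - dist q c)) • e) +
        (φp - φq) • ((σ * dist q c) • e - (z q - z c)) := by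
    module
  have h0 : 0 ≤ φp := psi_nonneg _ _ _
  have h1 : φp ≤ 1 := psi_le_one hη _ _
  have h2 : ‖(σ * (dist p c - dist q c)) • e‖ ≤ dist p q := by
    rw [norm_smul, he, mul_one, Real.norm_eq_abs, abs_mul, hσ, one_mul]
    exact abs_dist_sub_le p q c
  have h3 : ‖(σ * dist q c) • e - (z q - z c)‖ ≤ 2 * dist q c := by
    refine (norm_sub_le _ _).trans ?_
    rw [norm_smul, he, mul_one, Real.norm_eq_abs, abs_mul, hσ, one_mul, abs_of_nonneg dist_nonneg]
    have := hz q c
    linarith
  have h4 : |φp - φq| * ‖(σ * dist q c) • e - (z q - z c)‖ ≤ 2 * η * dist p q := by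
    rcases eq_or_lt_of_le (dist_nonneg (x := q) (y := c)) with h5 | h5
    · have h6 : ‖(σ * dist q c) • e - (z q - z c)‖ = 0 := le_antisymm (by linarith [h3, h5]) (norm_nonneg _)
      rw [h6, mul_zero]; positivity
    · have h6 := psi_lip (t := dist c x) hη h5 hpq
      have h7 : dist p c - dist q c ≤ dist p q := (le_abs_self _).trans (abs_dist_sub_le p q c)
      calc _ ≤ |φp - φq| * (2 * dist q c) := mul_le_mul_of_nonneg_left h3 (abs_nonneg _)
        _ = 2 * (|φp - φq| * dist q c) := by ring
        _ ≤ 2 * (η * (dist p c - dist q c)) := by linarith [h6]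
        _ ≤ 2 * (η * dist p q) := by
            have := mul_le_mul_of_nonneg_left h7 hη
            linarith
        _ = _ := by ring
  rw [e1]
  refine (norm_add_le _ _).trans ?_
  have h8 : ‖(1 - φp) • (z p - z q) + φp • ((σ * (dist p c - dist q c)) • e)‖ ≤ dist p q := by
    refine (norm_add_le _ _).trans ?_
    rw [norm_smul, norm_smul φp, Real.norm_eq_abs, Real.norm_eq_abs, abs_of_nonneg h0, abs_of_nonneg (sub_nonneg.2 h1)]
    have a1 := mul_le_mul_of_nonneg_left (hz p q) (sub_nonneg.2 h1)
    have a2 := mul_le_mul_of_nonneg_left h2 h0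
    linarith
  rw [norm_smul, Real.norm_eq_abs]
  linarith

theorem raw_add_lip {z : M → Y} (hz : ∀ p q, ‖z p - z q‖ ≤ dist p q) {e : Y} (he : ‖e‖ = 1) {η σ : ℝ}
    (hη : 0 ≤ η) (hσ : |σ| = 1) (c x p q : M) :
    ‖(z p + raw z e η σ c x p) - (z q + raw z e η σ c x q)‖ ≤ (1 + 2 * η) * dist p q := by
  rcases le_total (dist q c) (dist p c) with h | h
  · exact raw_add_lip_aux hz he hη hσ c x p q h
  · rw [norm_sub_rev, dist_comm p q]
    exact raw_add_lip_aux hz he hη hσ c x q p h

theorem raw_lip {z : M → Y} (hz : ∀ p q, ‖z p - z q‖ ≤ dist p q) {e : Y} (he : ‖e‖ = 1) {η σ : ℝ}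
    (hη : 0 ≤ η) (hσ : |σ| = 1) (c x p q : M) :
    ‖raw z e η σ c x p - raw z e η σ c x q‖ ≤ (2 + 2 * η) * dist p q := by
  have h1 := raw_add_lip hz he hη hσ c x p q
  have h2 := hz p q
  have e1 : raw z e η σ c x p - raw z e η σ c x q =
      ((z p + raw z e η σ c x p) - (z q + raw z e η σ c x q)) - (z p - z q) := by abel
  rw [e1]
  refine (norm_sub_le _ _).trans ?_
  linarith

theorem exists_pert {z : M → Y} (hz : ∀ p q, ‖z p - z q‖ ≤ dist p q) {e : Y} (he : ‖e‖ = 1) {η σ : ℝ}
    (hη : 0 ≤ η) (hσ : |σ| = 1) (c x : M) :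
    ∃ w : Lip M o Y, ∀ p, w.fn p = raw z e η σ c x p - raw z e η σ c x o := by
  refine ⟨Lip.mk (fun p => raw z e η σ c x p - raw z e η σ c x o) (sub_self _) (2 + 2 * η) (by positivity)
    fun p q => ?_, fun p => rfl⟩
  rw [sub_sub_sub_cancel_right]
  exact raw_lip hz he hη hσ c x p q

/-- evaluation at a point, a linear map -/
def evalHom (p : M) : Lip M o Y →ₗ[ℝ] Y where
  toFun f := f.fn p
  map_add' _ _ := rfl
  map_smul' _ _ := rfl

theorem sum_one_le {N : ℕ} {P : ℕ → Prop} [DecidablePred P] (h : ∀ j < N, ∀ k < N, j ≠ k → ¬ (P j ∧ P k)) {D : ℝ}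
    (hD : 0 ≤ D) : ∑ k ∈ Finset.range N, (if P k then D else 0) ≤ D := by
  rw [← Finset.sum_filter, Finset.sum_const, nsmul_eq_mul]
  have h1 : ((Finset.range N).filter P).card ≤ 1 := by
    rw [Finset.card_le_one]
    intro a ha b hb
    rw [Finset.mem_filter, Finset.mem_range] at ha hb
    by_contra hab
    exact h a ha.1 b hb.1 hab ⟨ha.2, hb.2⟩
  have h2 : ((((Finset.range N).filter P).card : ℕ) : ℝ) ≤ 1 := by exact_mod_cast h1
  calc _ ≤ 1 * D := mul_le_mul_of_nonneg_right h2 hD
    _ = D := one_mul D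

theorem signed_sum_le {z : M → Y} (hz : ∀ p q, ‖z p - z q‖ ≤ dist p q) {e : Y} (he : ‖e‖ = 1) {η σ : ℝ}
    (hη : 0 < η) (hσ : |σ| = 1) {N : ℕ} {c x : ℕ → M} (hcx : ∀ k < N, c k ≠ x k)
    (hdis : ∀ j < N, ∀ k < N, j ≠ k → ∀ p,
      ¬ ((dist (c j) (x j) / Real.exp (1 / η) < dist p (c j) ∧ dist p (c j) < dist (c j) (x j) * Real.exp (1 / η)) ∧
        (dist (c k) (x k) / Real.exp (1 / η) < dist p (c k) ∧ dist p (c k) < dist (c k) (x k) * Real.exp (1 / η))))
    (w : ℕ → Lip M o Y) (hw : ∀ k p, (w k).fn p = raw z e η σ (c k) (x k) p - raw z e η σ (c k) (x k) o)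
    (ε : ℕ → ℝ) (hε : ∀ k, |ε k| ≤ 1) : ‖∑ k ∈ Finset.range N, ε k • w k‖ ≤ 2 * (2 + 2 * η) := by
  classical
  refine Lip.norm_le' _ (by positivity) fun p q => ?_
  have e1 : ∀ r : M, (∑ k ∈ Finset.range N, ε k • w k).fn r =
      ∑ k ∈ Finset.range N, ε k • (w k).fn r := by
    intro r
    have := map_sum (evalHom (o := o) (Y := Y) r) (fun k => ε k • w k) (Finset.range N)
    exact this
  rw [e1, e1, ← Finset.sum_sub_distrib]
  refine (norm_sum_le _ _).trans ?_
  have hS : ∀ r : M, ∀ k < N, raw z e η σ (c k) (x k) r ≠ 0 →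
      dist (c k) (x k) / Real.exp (1 / η) < dist r (c k) ∧ dist r (c k) < dist (c k) (x k) * Real.exp (1 / η) := by
    intro r k hk h
    refine psi_ne_zero hη (dist_pos.2 (hcx k hk)) fun h2 => h ?_
    unfold raw
    rw [h2, zero_smul]
  have h1 : ∀ k ∈ Finset.range N, ‖ε k • (w k).fn p - ε k • (w k).fn q‖ ≤
      (if raw z e η σ (c k) (x k) p ≠ 0 then (2 + 2 * η) * dist p q else 0) +
      (if raw z e η σ (c k) (x k) q ≠ 0 then (2 + 2 * η) * dist p q else 0) := by
    intro k _
    rw [← smul_sub, norm_smul, hw, hw, sub_sub_sub_cancel_right]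
    have h2 := raw_lip hz he hη.le hσ (c k) (x k) p q
    have h3 : ‖ε k‖ * ‖raw z e η σ (c k) (x k) p - raw z e η σ (c k) (x k) q‖ ≤
        ‖raw z e η σ (c k) (x k) p - raw z e η σ (c k) (x k) q‖ := by
      rw [Real.norm_eq_abs]
      exact mul_le_of_le_one_left (norm_nonneg _) (hε k)
    refine h3.trans ?_
    have h4 : 0 ≤ (2 + 2 * η) * dist p q := by positivity
    by_cases hp : raw z e η σ (c k) (x k) p = 0
    · by_cases hq : raw z e η σ (c k) (x k) q = 0
      · simp [hp, hq]
      · rw [if_neg (not_not.2 hp), if_pos hq]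
        linarith
    · rw [if_pos hp]
      split_ifs <;> linarith
  refine (Finset.sum_le_sum h1).trans ?_
  rw [Finset.sum_add_distrib]
  have h4 : 0 ≤ (2 + 2 * η) * dist p q := by positivity
  have h5 : ∀ r : M, ∑ k ∈ Finset.range N, (if raw z e η σ (c k) (x k) r ≠ 0 then (2 + 2 * η) * dist p q else 0) ≤
      (2 + 2 * η) * dist p q := fun r =>
    sum_one_le (P := fun k => raw z e η σ (c k) (x k) r ≠ 0)
      (fun j hj k hk hjk h => hdis j hj k hk hjk r ⟨hS r j hj h.1, hS r k hk h.2⟩) h4
  have := h5 p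
  have := h5 q
  linarith

end pert

/-! ### The main argument -/

section main

variable {M : Type*} [MetricSpace M] {o : M} {Y : Type*} [NormedAddCommGroup Y] [NormedSpace ℝ Y]

/-- There are as many disjoint annuli as we want: `N` pairs `c k ≠ x k` such that the annuli around the `c k` with the
radii `d(c k, x k) / E` and `d(c k, x k) E` are disjoint. -/
def Annuli (M : Type*) [MetricSpace M] : Prop :=
  ∀ E : ℝ, 1 < E → ∀ N : ℕ, ∃ c x : ℕ → M, (∀ k < N, c k ≠ x k) ∧ ∀ j < N, ∀ k < N, j ≠ k → ∀ p,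
    ¬ ((dist (c j) (x j) / E < dist p (c j) ∧ dist p (c j) < dist (c j) (x j) * E) ∧
      (dist (c k) (x k) / E < dist p (c k) ∧ dist p (c k) < dist (c k) (x k) * E))

/-- the sign -/
def sgn (b : Bool) : ℝ := if b then 1 else -1

theorem abs_sgn (b : Bool) : |sgn b| = 1 := by cases b <;> simp [sgn]

theorem combination_norm_le {Z : Type*} [NormedAddCommGroup Z] [NormedSpace ℝ Z] {n : ℕ} {c : Fin n → ℝ}
    {f : Fin n → Z →L[ℝ] ℝ} {α : Fin n → ℝ} (hc : ∀ i, 0 < c i) (hsum : ∑ i, c i = 1) {z : Z}
    (hz : z ∈ combination c f α) : ‖z‖ ≤ 1 := by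
  obtain ⟨w, hw, rfl⟩ := hz
  refine (norm_sum_le _ _).trans ?_
  rw [← hsum]
  refine Finset.sum_le_sum fun i _ => ?_
  rw [norm_smul, Real.norm_eq_abs, abs_of_pos (hc i)]
  have := (hw i).1
  have := (hc i).le
  nlinarith

theorem sym (hM : Annuli M) {n : ℕ} (hn : 0 < n) {f : Fin n → Lip M o Y →L[ℝ] ℝ} {α : Fin n → ℝ}
    (hf : ∀ i, ‖f i‖ = 1) {η : ℝ} (hη : 0 < η) (hη1 : η ≤ 1) (hα : ∀ i, 4 * η ≤ α i) :
    ∃ (x : Fin n → Lip M o Y) (y : Lip M o Y), 1 ≤ (1 + 2 * η) * ‖y‖ ∧ ‖y‖ ≤ 1 ∧
      ∀ i, x i ∈ slice (f i) (α i) ∧ x i + y ∈ slice (f i) (α i) ∧ x i - y ∈ slice (f i) (α i) := by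
  classical
  -- a unit vector
  obtain ⟨e, he⟩ : ∃ e : Y, ‖e‖ = 1 := by
    obtain ⟨z, _, hz⟩ := exists_almost_norming (f ⟨0, hn⟩) (hf _) (β := 1) one_pos
    have hz0 : z ≠ 0 := by
      rintro rfl
      rw [map_zero] at hz
      linarith
    obtain ⟨p, hp⟩ : ∃ p, z.fn p ≠ 0 := by
      by_contra h
      push Not at h
      exact hz0 (Lip.ext fun p => h p)
    refine ⟨‖z.fn p‖⁻¹ • z.fn p, ?_⟩
    rw [norm_smul, norm_inv, norm_norm, inv_mul_cancel₀ (norm_ne_zero_iff.2 hp)]
  choose z hz1 hz2 using fun i => exists_almost_norming (f i) (hf i) hη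
  have hzl : ∀ i p q, ‖(z i).fn p - (z i).fn q‖ ≤ dist p q := by
    intro i p q
    refine ((z i).norm_sub_le p q).trans ?_
    exact mul_le_of_le_one_left dist_nonneg (hz1 i)
  obtain ⟨N, hN⟩ := exists_nat_gt ((n : ℝ) * 2 * 8 / η)
  have hE : 1 < Real.exp (1 / η) := Real.one_lt_exp_iff.2 (by positivity)
  obtain ⟨cc, xx, hcx, hdis⟩ := hM (Real.exp (1 / η)) hE N
  choose w hw using fun (i : Fin n) (b : Bool) (k : ℕ) =>
    exists_pert (o := o) (hzl i) he hη.le (abs_sgn b) (cc k) (xx k)
  have hsb : ∀ i b, ∑ k ∈ Finset.range N, |f i (w i b k)| ≤ 8 := by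
    intro i b
    refine (sum_abs_le (f i) (hf i).le N (w i b) (2 * (2 + 2 * η)) fun ε hε => ?_).trans (by linarith)
    exact signed_sum_le (hzl i) he hη (abs_sgn b) hcx hdis (w i b) (fun k p => hw i b k p) ε hε
  obtain ⟨k, hk, hkη⟩ : ∃ k ∈ Finset.range N, (∑ i, ∑ b, |f i (w i b k)|) < η := by
    refine Finset.exists_lt_of_sum_lt ?_
    rw [Finset.sum_comm, Finset.sum_const, Finset.card_range, nsmul_eq_mul]
    have h1 : ∑ i, ∑ k ∈ Finset.range N, ∑ b, |f i (w i b k)| ≤ (n : ℝ) * 2 * 8 := by
      calc _ ≤ ∑ _i : Fin n, (2 * 8 : ℝ) := by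
            refine Finset.sum_le_sum fun i _ => ?_
            rw [Finset.sum_comm, Fintype.sum_bool]
            have := hsb i true
            have := hsb i false
            linarith
        _ = (n : ℝ) * 2 * 8 := by
            rw [Finset.sum_const, Finset.card_univ, Fintype.card_fin, nsmul_eq_mul]; ring
    refine lt_of_le_of_lt h1 ?_
    rw [div_lt_iff₀ hη] at hN
    exact hN
  have hk' : k < N := Finset.mem_range.1 hk
  have hsmall : ∀ i b, |f i (w i b k)| < η := by
    intro i b
    refine lt_of_le_of_lt ?_ hkη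
    calc |f i (w i b k)| ≤ ∑ b, |f i (w i b k)| :=
          Finset.single_le_sum (f := fun b => |f i (w i b k)|) (fun b _ => abs_nonneg _) (Finset.mem_univ b)
      _ ≤ ∑ i, ∑ b, |f i (w i b k)| :=
          Finset.single_le_sum (f := fun i => ∑ b, |f i (w i b k)|)
            (fun i _ => Finset.sum_nonneg fun b _ => abs_nonneg _) (Finset.mem_univ i)
  have hpos : 0 < 1 + 2 * η := by positivity
  -- the elements of the slices
  have hnorm : ∀ i b, ‖z i + w i b k‖ ≤ 1 + 2 * η := by
    intro i b
    refine Lip.norm_le' _ hpos.le fun p q => ?_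
    have h1 := raw_add_lip (hzl i) he hη.le (abs_sgn b) (cc k) (xx k) p q
    have h2 : (z i + w i b k).fn p - (z i + w i b k).fn q =
        ((z i).fn p + raw (z i).fn e η (sgn b) (cc k) (xx k) p) -
          ((z i).fn q + raw (z i).fn e η (sgn b) (cc k) (xx k) q) := by
      rw [Lip.fn_add', Lip.fn_add', hw, hw]; abel
    rw [h2]
    exact h1
  set u : Fin n → Bool → Lip M o Y := fun i b => (1 + 2 * η)⁻¹ • (z i + w i b k) with hu
  have hmem : ∀ i b, u i b ∈ slice (f i) (α i) := by
    intro i b
    refine ⟨?_, ?_⟩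
    · simp only [hu]
      rw [norm_smul, norm_inv, Real.norm_eq_abs, abs_of_pos hpos, inv_mul_le_iff₀ hpos, mul_one]
      exact hnorm i b
    · simp only [hu]
      rw [map_smul, smul_eq_mul]
      have h1 : |f i (z i + w i b k)| ≤ 1 + 2 * η := by
        rw [← Real.norm_eq_abs]
        refine ((f i).le_opNorm _).trans ?_
        rw [hf i, one_mul]
        exact hnorm i b
      have h2 : f i (z i + w i b k) - 2 * η ≤ (1 + 2 * η)⁻¹ * f i (z i + w i b k) := by
        rw [inv_mul_eq_div, le_div_iff₀ hpos]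
        have h3 := (abs_le.1 h1).2
        nlinarith
      have h3 : f i (z i + w i b k) = f i (z i) + f i (w i b k) := map_add _ _ _
      have h4 := (abs_lt.1 (hsmall i b)).1
      have h5 := hz2 i
      have h6 := hα i
      linarith
  have ht : 0 < dist (cc k) (xx k) := dist_pos.2 (hcx k hk')
  -- the difference does not depend on `i`
  have hdiff : ∀ i p, ((1 / 2 : ℝ) • (u i true - u i false)).fn p =
      (1 + 2 * η)⁻¹ • (((psi η (dist (cc k) (xx k)) (dist p (cc k)) * dist p (cc k)) -
        (psi η (dist (cc k) (xx k)) (dist o (cc k)) * dist o (cc k))) • e) := by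
    intro i p
    have h1 : ((1 / 2 : ℝ) • (u i true - u i false)).fn p =
        (1 / 2 : ℝ) • ((1 + 2 * η)⁻¹ • ((z i).fn p + (w i true k).fn p) -
          (1 + 2 * η)⁻¹ • ((z i).fn p + (w i false k).fn p)) := rfl
    rw [h1, hw, hw]
    unfold raw
    simp only [sgn, if_true, Bool.false_eq_true, if_false]
    module
  set i0 : Fin n := ⟨0, hn⟩
  have hsame : ∀ i, (1 / 2 : ℝ) • (u i true - u i false) = (1 / 2 : ℝ) • (u i0 true - u i0 false) := fun i =>
    Lip.ext fun p => by rw [hdiff, hdiff]
  refine ⟨fun i => (1 / 2 : ℝ) • (u i true + u i false), (1 / 2 : ℝ) • (u i0 true - u i0 false), ?_, ?_, fun i => ?_⟩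
  · have hfin := ((1 / 2 : ℝ) • (u i0 true - u i0 false)).norm_sub_le (xx k) (cc k)
    rw [hdiff, hdiff, dist_self, mul_zero, ← smul_sub, ← sub_smul, dist_comm (xx k) (cc k), psi_self η ht] at hfin
    have e1 : ((1 * dist (cc k) (xx k)) - (psi η (dist (cc k) (xx k)) (dist o (cc k)) * dist o (cc k)) -
        (0 - (psi η (dist (cc k) (xx k)) (dist o (cc k)) * dist o (cc k)))) = dist (cc k) (xx k) := by ring
    rw [e1, norm_smul, norm_smul, he, mul_one, norm_inv, Real.norm_eq_abs, Real.norm_eq_abs, abs_of_pos hpos,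
      abs_of_pos ht] at hfin
    have h8 : (1 + 2 * η)⁻¹ ≤ ‖(1 / 2 : ℝ) • (u i0 true - u i0 false)‖ := le_of_mul_le_mul_right hfin ht
    rw [inv_le_iff_one_le_mul₀' hpos] at h8
    exact h8
  · rw [norm_smul, Real.norm_eq_abs, abs_of_pos (by norm_num : (0 : ℝ) < 1 / 2)]
    have h1 := norm_sub_le (u i0 true) (u i0 false)
    have h2 := (hmem i0 true).1
    have h3 := (hmem i0 false).1
    linarith
  · refine ⟨⟨?_, ?_⟩, ?_, ?_⟩
    · rw [norm_smul, Real.norm_eq_abs, abs_of_pos (by norm_num : (0 : ℝ) < 1 / 2)]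
      have h1 := norm_add_le (u i true) (u i false)
      have h2 := (hmem i true).1
      have h3 := (hmem i false).1
      linarith
    · rw [map_smul, map_add, smul_eq_mul]
      have h2 := (hmem i true).2
      have h3 := (hmem i false).2
      linarith
    · rw [← hsame i]
      have e1 : (1 / 2 : ℝ) • (u i true + u i false) + (1 / 2 : ℝ) • (u i true - u i false) = u i true := by module
      rw [e1]
      exact hmem i true
    · rw [← hsame i]
      have e1 : (1 / 2 : ℝ) • (u i true + u i false) - (1 / 2 : ℝ) • (u i true - u i false) = u i false := by module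
      rw [e1]
      exact hmem i false

theorem eventually_small {n : ℕ} {α : Fin n → ℝ} (hα : ∀ i, 0 < α i) :
    ∀ᶠ η : ℝ in nhdsWithin 0 (Set.Ioi 0), 0 < η ∧ η ≤ 1 ∧ ∀ i, 4 * η ≤ α i := by
  have h3 : ∀ᶠ η : ℝ in nhdsWithin 0 (Set.Ioi 0), 0 < η := self_mem_nhdsWithin
  have h4 : ∀ᶠ η : ℝ in nhdsWithin 0 (Set.Ioi 0), η ≤ 1 :=
    eventually_nhdsWithin_of_eventually_nhds (eventually_le_nhds one_pos)
  have h5 : ∀ᶠ η : ℝ in nhdsWithin 0 (Set.Ioi 0), ∀ i, 4 * η ≤ α i := by
    rw [Filter.eventually_all]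
    intro i
    have h6 : ∀ᶠ η : ℝ in nhdsWithin 0 (Set.Ioi 0), η ≤ α i / 4 :=
      eventually_nhdsWithin_of_eventually_nhds (eventually_le_nhds (by linarith [hα i]))
    exact h6.mono fun η h => by linarith
  filter_upwards [h3, h4, h5] with η a1 a2 a3
  exact ⟨a1, a2, a3⟩

theorem symmetric_of_annuli (hM : Annuli M) : SymmetricStrongDiameterTwo (Lip M o Y) := by
  intro n f α ε hn hf hα hε
  have h1 : ∀ᶠ η : ℝ in nhdsWithin 0 (Set.Ioi 0), η ≤ ε / 3 :=
    eventually_nhdsWithin_of_eventually_nhds (eventually_le_nhds (by linarith))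
  obtain ⟨η, ⟨a1, a2, a3⟩, a4⟩ := ((eventually_small hα).and h1).exists
  obtain ⟨x, y, b1, b2, b3⟩ := sym (o := o) (Y := Y) hM hn hf a1 a2 a3
  refine ⟨x, y, ?_, b2, b3⟩
  nlinarith [norm_nonneg y]

theorem sd2p_of_annuli (hM : Annuli M) : StrongDiameterTwo (Lip M o Y) := by
  intro n c f α hc hsum hf hα
  have hn : 0 < n := by
    rcases Nat.eq_zero_or_pos n with rfl | h
    · simp at hsum
    · exact h
  apply le_antisymm
  · refine Metric.diam_le_of_forall_dist_le (by norm_num) fun x hx y hy => ?_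
    have h1 := combination_norm_le hc hsum hx
    have h2 := combination_norm_le hc hsum hy
    calc dist x y ≤ ‖x‖ + ‖y‖ := by rw [dist_eq_norm]; exact norm_sub_le _ _
      _ ≤ 2 := by linarith
  · set D := Metric.diam (combination c f α) with hD
    have h1 : Filter.Tendsto (fun η : ℝ => (1 + 2 * η) * D) (nhdsWithin 0 (Set.Ioi 0)) (nhds ((1 + 2 * 0) * D)) := by
      refine Filter.Tendsto.mono_left ?_ nhdsWithin_le_nhds
      exact ((continuous_const.add (continuous_const.mul continuous_id)).mul continuous_const).tendsto 0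
    have h2 : ∀ᶠ η : ℝ in nhdsWithin 0 (Set.Ioi 0), 2 ≤ (1 + 2 * η) * D := by
      refine (eventually_small hα).mono fun η ⟨a1, a2, a3⟩ => ?_
      obtain ⟨x, y, b1, b2, b3⟩ := sym (o := o) (Y := Y) hM hn hf a1 a2 a3
      have m1 : (∑ i, c i • (x i + y)) ∈ combination c f α := ⟨fun i => x i + y, fun i => (b3 i).2.1, rfl⟩
      have m2 : (∑ i, c i • (x i - y)) ∈ combination c f α := ⟨fun i => x i - y, fun i => (b3 i).2.2, rfl⟩
      have hbdd : Bornology.IsBounded (combination c f α) :=
        (Metric.isBounded_closedBall (x := (0 : Lip M o Y)) (r := 1)).subset fun y hy =>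
          mem_closedBall_zero_iff.2 (combination_norm_le hc hsum hy)
      have hdist := Metric.dist_le_diam_of_mem hbdd m1 m2
      rw [dist_eq_norm, ← Finset.sum_sub_distrib] at hdist
      have e1 : ∑ i, (c i • (x i + y) - c i • (x i - y)) = (2 : ℝ) • y := by
        have e2 : ∀ i ∈ Finset.univ, c i • (x i + y) - c i • (x i - y) = c i • ((2 : ℝ) • y) := by
          intro i _
          module
        rw [Finset.sum_congr rfl e2, ← Finset.sum_smul, hsum, one_smul]
      rw [e1, norm_smul, Real.norm_eq_abs, abs_of_pos (by norm_num : (0 : ℝ) < 2)] at hdist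
      have h3 : (1 + 2 * η) * (2 * ‖y‖) ≤ (1 + 2 * η) * D := mul_le_mul_of_nonneg_left hdist (by positivity)
      linarith
    have h3 := ge_of_tendsto h1 h2
    linarith

end main

/-! ### Disjoint annuli -/

section annuli

variable {M : Type*} [MetricSpace M]

theorem annuli_of_lt {E : ℝ} {N : ℕ} {c x : ℕ → M} (h : ∀ j k, j < k → k < N → ∀ p,
    ¬ ((dist (c j) (x j) / E < dist p (c j) ∧ dist p (c j) < dist (c j) (x j) * E) ∧
      (dist (c k) (x k) / E < dist p (c k) ∧ dist p (c k) < dist (c k) (x k) * E))) :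
    ∀ j < N, ∀ k < N, j ≠ k → ∀ p,
    ¬ ((dist (c j) (x j) / E < dist p (c j) ∧ dist p (c j) < dist (c j) (x j) * E) ∧
      (dist (c k) (x k) / E < dist p (c k) ∧ dist p (c k) < dist (c k) (x k) * E)) := by
  intro j hj k hk hjk p hp
  rcases lt_or_gt_of_ne hjk with h1 | h1
  · exact h j k h1 hk p hp
  · exact h k j h1 hj p hp.symm

theorem annuli_of_unbounded (o : M) (h : ∀ R : ℝ, ∃ x : M, R < dist x o) : Annuli M := by
  intro E hE N
  choose g hg using h
  let x : ℕ → M := fun n => Nat.rec (g 1) (fun _ y => g (E * E * dist y o)) n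
  have hx : ∀ n, E * E * dist (x n) o < dist (x (n + 1)) o := fun n => hg _
  have hx0 : ∀ n, 0 < dist (x n) o := by
    intro n
    cases n with
    | zero => exact lt_trans one_pos (hg 1)
    | succ n => exact lt_of_le_of_lt (by positivity) (hx n)
  have hE0 : 0 < E := by linarith
  have hmono : ∀ j m, E * E * dist (x j) o ≤ dist (x (j + 1 + m)) o := by
    intro j m
    induction m with
    | zero => exact (hx j).le
    | succ m ih =>
      have h1 := hx (j + 1 + m)
      have h2 : dist (x (j + 1 + m)) o ≤ E * E * dist (x (j + 1 + m)) o := by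
        have := hx0 (j + 1 + m)
        nlinarith [mul_pos (sub_pos.2 hE) (sub_pos.2 hE), mul_pos (sub_pos.2 hE) this]
      have h3 : j + 1 + (m + 1) = j + 1 + m + 1 := by omega
      rw [h3]
      linarith
  refine ⟨fun _ => o, x, fun k _ h => ?_, annuli_of_lt fun j k hjk _ p hp => ?_⟩
  · have := hx0 k
    rw [← h, dist_self] at this
    exact lt_irrefl _ this
  · obtain ⟨⟨_, h1⟩, ⟨h2, _⟩⟩ := hp
    have h3 := hmono j (k - (j + 1))
    rw [show j + 1 + (k - (j + 1)) = k by omega] at h3
    rw [dist_comm o (x j)] at h1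
    rw [dist_comm o (x k), div_lt_iff₀ hE0] at h2
    nlinarith

theorem annuli_of_not_uniformly_discrete (h : ∀ ε : ℝ, 0 < ε → ∃ x y : M, x ≠ y ∧ dist x y < ε) : Annuli M := by
  intro E hE N
  have hE0 : 0 < E := by linarith
  set θ : ℝ := 1 / (16 * E ^ 4) with hθ
  have hθ0 : 0 < θ := by positivity
  have hθE : θ * (16 * E ^ 4) = 1 := by rw [hθ]; field_simp
  have hne : Nonempty M := ⟨(h 1 one_pos).choose⟩
  choose! g1 g2 hg using h
  let P : ℕ → M × M := fun n => Nat.rec (g1 1, g2 1)
    (fun _ y => (g1 (θ * dist y.1 y.2), g2 (θ * dist y.1 y.2))) n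
  set a : ℕ → M := fun n => (P n).1 with ha
  set b : ℕ → M := fun n => (P n).2 with hb
  set t : ℕ → ℝ := fun n => dist (a n) (b n) with ht
  have ht0 : ∀ n, 0 < t n := by
    intro n
    induction n with
    | zero => exact dist_pos.2 (hg 1 one_pos).1
    | succ n ih => exact dist_pos.2 (hg (θ * t n) (mul_pos hθ0 ih)).1
  have ht1 : ∀ n, t (n + 1) < θ * t n := fun n => (hg (θ * t n) (mul_pos hθ0 (ht0 n))).2
  have hE2 : 1 ≤ E ^ 2 := one_le_pow₀ hE.le
  have hE3 : 1 ≤ E ^ 3 := one_le_pow₀ hE.le
  have hE4 : 1 ≤ E ^ 4 := one_le_pow₀ hE.le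
  have hθ1 : θ ≤ 1 / 16 := by nlinarith
  have ht2 : ∀ j m, t (j + 1 + m) ≤ θ * t j := by
    intro j m
    induction m with
    | zero => exact (ht1 j).le
    | succ m ih =>
      have h1 := ht1 (j + 1 + m)
      have h2 := ht0 (j + 1 + m)
      rw [show j + 1 + (m + 1) = j + 1 + m + 1 by omega]
      nlinarith
  have ht3 : ∀ j k, j < k → t k ≤ θ * t j := by
    intro j k hjk
    have := ht2 j (k - (j + 1))
    rwa [show j + 1 + (k - (j + 1)) = k by omega] at this
  obtain ⟨g, hg1 | hg2⟩ := exists_increasing_or_nonincreasing_subseq'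
    (fun k j : ℕ => t k ≤ dist (a k) (a j) * (2 * E) ∧ dist (a k) (a j) ≤ 2 * E * t k) id
  · -- the points `a (g n)` form a Cauchy sequence
    have hT : ∀ j k, j < k → t (g k) ≤ θ * t (g j) := fun j k hjk => ht3 _ _ (g.strictMono hjk)
    have hup : ∀ m n, dist (a (g n)) (a (g (n + m))) ≤ 4 * E * t (g n) := by
      intro m
      induction m with
      | zero =>
        intro n
        rw [Nat.add_zero, dist_self]
        have := ht0 (g n)
        positivity
      | succ m ih =>
        intro n
        have h1 := ih (n + 1)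
        have h2 := (hg1 n).2
        have h3 := hT n (n + 1) (Nat.lt_succ_self n)
        have h4 := dist_triangle (a (g n)) (a (g (n + 1))) (a (g (n + 1 + m)))
        have h5 := ht0 (g n)
        rw [show n + (m + 1) = n + 1 + m by omega]
        simp only [id] at h2
        have h6 : 4 * E * t (g (n + 1)) ≤ 4 * E * (θ * t (g n)) := mul_le_mul_of_nonneg_left h3 (by positivity)
        have h7 : 4 * E * (θ * t (g n)) ≤ 2 * E * t (g n) := by
          have : 0 < E * t (g n) := mul_pos hE0 h5
          nlinarith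
        linarith
    have hup' : ∀ n, n < N → dist (a (g n)) (a (g N)) ≤ 4 * E * t (g n) := by
      intro n hn
      have := hup (N - n) n
      rwa [show n + (N - n) = N by omega] at this
    have hlow : ∀ n, n < N → t (g n) ≤ 4 * E * dist (a (g n)) (a (g N)) := by
      intro n hn
      have h1 := (hg1 n).1
      simp only [id] at h1
      have h2 : dist (a (g (n + 1))) (a (g N)) ≤ 4 * E * t (g (n + 1)) := by
        have := hup (N - (n + 1)) (n + 1)
        rwa [show n + 1 + (N - (n + 1)) = N by omega] at this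
      have h3 := hT n (n + 1) (Nat.lt_succ_self n)
      have h4 := dist_triangle (a (g n)) (a (g N)) (a (g (n + 1)))
      rw [dist_comm (a (g N))] at h4
      have h5 := ht0 (g n)
      -- `t ≤ 2 E (dist + 4 E θ t)`
      have h6 : 4 * E * t (g (n + 1)) ≤ 4 * E * (θ * t (g n)) := mul_le_mul_of_nonneg_left h3 (by positivity)
      have h7 : t (g n) ≤ (dist (a (g n)) (a (g N)) + 4 * E * (θ * t (g n))) * (2 * E) := by
        refine h1.trans (mul_le_mul_of_nonneg_right ?_ (by positivity))
        linarith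
      have h8 : 4 * E * (θ * t (g n)) * (2 * E) ≤ t (g n) / 2 := by
        have e1 : 4 * E * (θ * t (g n)) * (2 * E) = (8 * θ * E ^ 2) * t (g n) := by ring
        have e2 : 8 * θ * E ^ 2 ≤ 1 / 2 := by
          have : θ * E ^ 2 ≤ θ * E ^ 4 := by
            refine mul_le_mul_of_nonneg_left ?_ hθ0.le
            exact pow_le_pow_right₀ hE.le (by norm_num)
          nlinarith
        rw [e1]
        nlinarith
      nlinarith
    have hpos : ∀ n, n < N → 0 < dist (a (g n)) (a (g N)) := by
      intro n hn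
      have h1 := hlow n hn
      have h2 := ht0 (g n)
      by_contra h3
      have h4 : dist (a (g n)) (a (g N)) = 0 := le_antisymm (not_lt.1 h3) dist_nonneg
      rw [h4, mul_zero] at h1
      linarith
    refine ⟨fun _ => a (g N), fun n => a (g n), fun k hk h1 => ?_, annuli_of_lt fun j k hjk hk p hp => ?_⟩
    · have := hpos k hk
      change a (g N) = a (g k) at h1
      rw [h1, dist_self] at this
      exact lt_irrefl _ this
    · obtain ⟨⟨h1, _⟩, ⟨_, h2⟩⟩ := hp
      change dist (a (g N)) (a (g j)) / E < dist p (a (g N)) at h1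
      change dist p (a (g N)) < dist (a (g N)) (a (g k)) * E at h2
      rw [dist_comm (a (g N)) (a (g j)), div_lt_iff₀ hE0] at h1
      rw [dist_comm (a (g N)) (a (g k))] at h2
      have h3 := hup' k hk
      have h4 := hT j k hjk
      have h5 := hlow j (hjk.trans hk)
      have h6 : dist (a (g k)) (a (g N)) * (E * E) ≤ dist (a (g j)) (a (g N)) := by
        calc _ ≤ (4 * E * (θ * (4 * E * dist (a (g j)) (a (g N))))) * (E * E) := by
              refine mul_le_mul_of_nonneg_right (h3.trans ?_) (by positivity)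
              refine mul_le_mul_of_nonneg_left (h4.trans ?_) (by positivity)
              exact mul_le_mul_of_nonneg_left h5 hθ0.le
          _ = (θ * (16 * E ^ 4)) * dist (a (g j)) (a (g N)) := by ring
          _ = dist (a (g j)) (a (g N)) := by rw [hθE, one_mul]
      nlinarith
  · -- no two of the points `a (g n)` are at the bad distance
    refine ⟨fun n => a (g n), fun n => b (g n), fun k _ h1 => ?_, annuli_of_lt fun j k hjk _ p hp => ?_⟩
    · have : 0 < dist (a (g k)) (b (g k)) := ht0 (g k)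
      change a (g k) = b (g k) at h1
      rw [h1, dist_self] at this
      exact lt_irrefl _ this
    · obtain ⟨⟨h1, h2⟩, ⟨_, h3⟩⟩ := hp
      refine hg2 j k hjk ?_
      simp only [id]
      change t (g j) / E < _ at h1
      change _ < t (g j) * E at h2
      change _ < t (g k) * E at h3
      rw [div_lt_iff₀ hE0] at h1
      have h4 := ht3 _ _ (g.strictMono hjk)
      have h5 := ht0 (g j)
      have h6 := dist_triangle (a (g j)) p (a (g k))
      have h7 := dist_triangle p (a (g k)) (a (g j))
      rw [dist_comm (a (g j)) p] at h6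
      rw [dist_comm (a (g k)) (a (g j))] at h7
      have h8 : t (g k) * E * (2 * E) ≤ t (g j) := by
        calc _ ≤ (θ * t (g j)) * E * (2 * E) := by
              refine mul_le_mul_of_nonneg_right (mul_le_mul_of_nonneg_right h4 hE0.le) (by positivity)
          _ = (2 * (θ * E ^ 2)) * t (g j) := by ring
          _ ≤ 1 * t (g j) := by
              refine mul_le_mul_of_nonneg_right ?_ h5.le
              have : θ * E ^ 2 ≤ θ * E ^ 4 := by
                refine mul_le_mul_of_nonneg_left ?_ hθ0.le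
                exact pow_le_pow_right₀ hE.le (by norm_num)
              nlinarith
          _ = _ := one_mul _
      have h9 : t (g k) * E ≤ E * t (g j) := by
        have a1 : 0 < t (g k) * E := mul_pos (ht0 _) hE0
        nlinarith [mul_pos a1 hE0, mul_pos h5 (sub_pos.2 hE)]
      constructor
      · nlinarith
      · nlinarith

end annuli

/-- **Theorem.** Let `M` be a metric space with a base point `o` which is unbounded or not uniformly discrete. Then for every
real normed space `Y` the space `Lip(M, Y)` has the strong diameter two property and even the symmetric strong diameter two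
property, for slices given by arbitrary functionals of norm one; the second part is the case `Y = X*` of the problem. The
contraction-extension property is not needed. -/
theorem result (M : Type*) [MetricSpace M] (o : M)
    (hM : ¬ Bornology.IsBounded (Set.univ : Set M) ∨ ∀ ε : ℝ, 0 < ε → ∃ x y : M, x ≠ y ∧ dist x y < ε) :
    (∀ (Y : Type*) [NormedAddCommGroup Y] [NormedSpace ℝ Y],
      StrongDiameterTwo (Lip M o Y) ∧ SymmetricStrongDiameterTwo (Lip M o Y)) ∧
    ∀ (X : Type*) [NormedAddCommGroup X] [NormedSpace ℝ X] [CompleteSpace X],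
      StrongDiameterTwo (Lip M o (StrongDual ℝ X)) := by
  have h : Annuli M := by
    rcases hM with h | h
    · refine annuli_of_unbounded o fun R => ?_
      by_contra hcon
      push Not at hcon
      exact h ((Metric.isBounded_closedBall (x := o) (r := R)).subset fun x _ => hcon x)
    · exact annuli_of_not_uniformly_discrete h
  exact ⟨fun Y _ _ => ⟨sd2p_of_annuli h, symmetric_of_annuli h⟩, fun X _ _ _ => sd2p_of_annuli h⟩

end Pool.Agent.Results.MP_6460d9_an.NoExtensionProperty
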